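import Pool.Agent.P.MP_cb22e8_co.Main

/-!
Green's question on covering `ZMod p` by `1.01 √p` translates of a random set of size `√p`.
-/

namespace Pool.Agent.Results.MP_cb22e8_co.NoCover

/-- The proportion of the `k`-element subsets `A` of `ZMod n`, where `k = ⌊√n⌋`, such that
`ZMod n = A + T` for some set `T` of at most `⌊1.01 k⌋` residues. -/
noncomputable def coverProb (n : ℕ) : ℝ :=
  ({A : Finset (ZMod n) | A.card = Nat.sqrt n ∧ ∃ T : Finset (ZMod n),
      T.card ≤ ⌊(101 / 100 : ℝ) * Nat.sqrt n⌋₊ ∧ ∀ z, ∃ a ∈ A, ∃ t ∈ T, a + t = z}.ncard : ℝ) /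
    n.choose (Nat.sqrt n)

/-- The covering probability tends to `0` as the modulus tends to infinity, through all
natural numbers and hence through the primes. -/
theorem result : Filter.Tendsto coverProb Filter.atTop (nhds 0) :=
  Pool.Agent.P.MP_cb22e8_co.main_theorem

end Pool.Agent.Results.MP_cb22e8_co.NoCover
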